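import Pool.Agent.AND2B.Stmts
import Pool.Agent.Helper76_LQY.TMA

/-!
# ACX, row T1 (helper39): translation invariance on the torus

`cnt` is the proportion of the sites of the torus at which the imaginary part of the diagonal of the
resolvent is smaller than `c`. Its mean is the probability at the origin.
-/

set_option autoImplicit false

open MeasureTheory ProbabilityTheory Function Filter

open scoped BigOperators NNReal ENNReal Matrix Topology

noncomputable section

namespace Pool.Agent.ACX.H39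

open Pool.Agent.Anderson hiding box mem_box card_box
open Pool.Agent.Loc Pool.Agent.Mob Pool.Agent.Helper54.Bal
  Pool.Agent.Helper96.EXP Pool.Agent.BED
open Pool.Agent.LE.MN Pool.Agent.LE.CL Pool.Agent.LE.IR Pool.Agent.LE.QD
open Pool.Agent.ANP
open Pool.Agent.ANR (Gr)

variable {d M : ℕ} [NeZero M]

/-- the resolvent at `E + i η` is the network with the constant absorption `η` -/
theorem rs_eq_res (U : Tor d M → ℝ) (E η : ℝ) :
    rs U ⟨E, η⟩ = AND2B.res U E (fun _ => η) := by
  unfold rs AND2B.res Gr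
  congr 1
  ext x y
  unfold hz AND2B.Hr
  have hE : (⟨E, η⟩ : ℂ) = (E : ℂ) + Complex.I * (η : ℂ) := by
    rw [mul_comm Complex.I, ← Complex.mk_eq_add_mul_I]
  by_cases h : x = y
  · subst h
    simp only [Matrix.add_apply, Matrix.map_apply, Matrix.diagonal_apply_eq, Matrix.sub_apply,
      Complex.ofReal_add, Complex.ofReal_sub, hE]
    ring
  · simp only [Matrix.add_apply, Matrix.map_apply, Matrix.diagonal_apply_ne _ h, Matrix.sub_apply,
      Complex.ofReal_add, Complex.ofReal_zero, add_zero, sub_zero]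

theorem rs_eq_gr (U : Tor d M → ℝ) (E η : ℝ) :
    rs U ⟨E, η⟩ = Gr (AND2B.Hr U E) (fun _ => η) := rs_eq_res U E η

/-- measurability of the diagonal -/
theorem meas_im (E : ℝ) {η : ℝ} (hη : 0 < η) (x : Tor d M) :
    Measurable fun U : Tor d M → ℝ => (rs U ⟨E, η⟩ x x).im :=
  Complex.measurable_im.comp (Pool.Agent.LE.QD.H76.cont ⟨E, η⟩ hη.ne' x x).measurable

theorem meas_set (E : ℝ) {η : ℝ} (hη : 0 < η) (c : ℝ) (x : Tor d M) :
    MeasurableSet {U : Tor d M → ℝ | (rs U ⟨E, η⟩ x x).im < c} :=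
  measurableSet_lt (meas_im E hη x) measurable_const

/-- the proportion of the sites with small imaginary part -/
def cnt (E η c : ℝ) (U : Tor d M → ℝ) : ℝ :=
  (({x | (rs U ⟨E, η⟩ x x).im < c} : Finset (Tor d M)).card : ℝ) / Fintype.card (Tor d M)

theorem card_pos : (0 : ℝ) < Fintype.card (Tor d M) := by
  exact_mod_cast Fintype.card_pos

theorem cnt_nonneg (E η c : ℝ) (U : Tor d M → ℝ) : 0 ≤ cnt E η c U := by
  unfold cnt
  positivity

theorem cnt_le_one (E η c : ℝ) (U : Tor d M → ℝ) : cnt E η c U ≤ 1 := by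
  unfold cnt
  rw [div_le_one card_pos]
  exact_mod_cast Finset.card_le_univ _

/-- the count as a sum of indicators -/
theorem cnt_eq (E η c : ℝ) (U : Tor d M → ℝ) :
    cnt E η c U = (∑ x : Tor d M,
      ({U : Tor d M → ℝ | (rs U ⟨E, η⟩ x x).im < c}).indicator (fun _ => (1 : ℝ)) U) /
        Fintype.card (Tor d M) := by
  unfold cnt
  congr 1
  rw [Finset.card_filter, Nat.cast_sum]
  refine Finset.sum_congr rfl fun x _ => ?_
  by_cases h : (rs U ⟨E, η⟩ x x).im < c
  · rw [if_pos h, Set.indicator_of_mem (show U ∈ {U : Tor d M → ℝ | (rs U ⟨E, η⟩ x x).im < c} from h)]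
    simp
  · rw [if_neg h,
      Set.indicator_of_notMem (show U ∉ {U : Tor d M → ℝ | (rs U ⟨E, η⟩ x x).im < c} from h)]
    simp

theorem meas_cnt (E : ℝ) {η : ℝ} (hη : 0 < η) (c : ℝ) :
    Measurable fun U : Tor d M → ℝ => cnt E η c U := by
  simp only [cnt_eq]
  refine Measurable.div_const ?_ _
  exact Finset.measurable_sum _ fun x _ => measurable_const.indicator (meas_set E hη c x)

/-- every site has the same law -/
theorem prob_site (v : ℝ≥0) (E : ℝ) {η : ℝ} (hη : 0 < η) (c : ℝ) (x : Tor d M) :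
    gau d M v {U | (rs U ⟨E, η⟩ x x).im < c} = gau d M v {U | (rs U ⟨E, η⟩ 0 0).im < c} := by
  rw [← (Pool.Agent.LE.QY.H76.mp_tr v x).measure_preimage (meas_set E hη c 0).nullMeasurableSet]
  congr 1
  ext U
  simp only [Set.mem_setOf_eq, Set.mem_preimage, Pool.Agent.LE.QD.H76.transl, add_zero]

/-- T1, the law at the origin is the mean of the proportion -/
theorem prob_eq (v : ℝ≥0) (E : ℝ) {η : ℝ} (hη : 0 < η) (c : ℝ) :
    (gau d M v).real {U | (rs U ⟨E, η⟩ 0 0).im < c} = ∫ U, cnt E η c U ∂(gau d M v) := by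
  have hprob : IsProbabilityMeasure (gau d M v) := by
    unfold gau
    infer_instance
  simp only [cnt_eq]
  rw [integral_div, integral_finsetSum]
  · have h1 : ∀ x : Tor d M, ∫ U, ({U : Tor d M → ℝ | (rs U ⟨E, η⟩ x x).im < c}).indicator
        (fun _ => (1 : ℝ)) U ∂(gau d M v) =
          (gau d M v).real {U | (rs U ⟨E, η⟩ 0 0).im < c} := by
      intro x
      rw [integral_indicator (meas_set E hη c x), setIntegral_const, smul_eq_mul, mul_one]
      unfold Measure.real
      rw [prob_site v E hη c x]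
    rw [Finset.sum_congr rfl fun x _ => h1 x, Finset.sum_const, Finset.card_univ, nsmul_eq_mul,
      mul_div_assoc, mul_div_cancel₀]
    exact card_pos.ne'
  · intro x _
    exact (integrable_const (1 : ℝ)).indicator (meas_set E hη c x)

/-- T1: the bound with a good event `W`; `W` need not be invariant. The functional is
`cnt` on `W` and `0` off `W`. -/
theorem t1 (v : ℝ≥0) (E : ℝ) {η : ℝ} (hη : 0 < η) (c e δ : ℝ) (W : Set (Tor d M → ℝ))
    (hW : MeasurableSet W) (hδ : (gau d M v).real Wᶜ ≤ δ)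
    (he : ∫ U, W.indicator (fun U => cnt E η c U) U ∂(gau d M v) ≤ e) :
    (gau d M v).real {U | (rs U ⟨E, η⟩ 0 0).im < c} ≤ e + δ := by
  have hprob : IsProbabilityMeasure (gau d M v) := by
    unfold gau
    infer_instance
  rw [prob_eq v E hη c]
  have hi : Integrable (fun U : Tor d M → ℝ => cnt E η c U) (gau d M v) := by
    refine Integrable.of_bound (meas_cnt E hη c).aestronglyMeasurable 1 ?_
    refine Filter.Eventually.of_forall fun U => ?_
    rw [Real.norm_of_nonneg (cnt_nonneg E η c U)]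
    exact cnt_le_one E η c U
  have hi1 : Integrable (W.indicator (fun U : Tor d M → ℝ => cnt E η c U)) (gau d M v) :=
    hi.indicator hW
  have hi2 : Integrable ((Wᶜ).indicator (fun _ : Tor d M → ℝ => (1 : ℝ))) (gau d M v) :=
    (integrable_const (1 : ℝ)).indicator hW.compl
  have h2 : ∫ U, (Wᶜ).indicator (fun _ : Tor d M → ℝ => (1 : ℝ)) U ∂(gau d M v) =
      (gau d M v).real Wᶜ := by
    rw [integral_indicator hW.compl, setIntegral_const, smul_eq_mul, mul_one]
  calc ∫ U, cnt E η c U ∂(gau d M v)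
      ≤ ∫ U, (W.indicator (fun U : Tor d M → ℝ => cnt E η c U) U +
          (Wᶜ).indicator (fun _ : Tor d M → ℝ => (1 : ℝ)) U) ∂(gau d M v) := by
        refine integral_mono hi (hi1.add hi2) fun U => ?_
        by_cases h : U ∈ W
        · show cnt E η c U ≤ W.indicator (fun U : Tor d M → ℝ => cnt E η c U) U +
            (Wᶜ).indicator (fun _ : Tor d M → ℝ => (1 : ℝ)) U
          rw [Set.indicator_of_mem h, Set.indicator_of_notMem (fun h1 : U ∈ Wᶜ => h1 h), add_zero]
        · show cnt E η c U ≤ W.indicator (fun U : Tor d M → ℝ => cnt E η c U) U +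
            (Wᶜ).indicator (fun _ : Tor d M → ℝ => (1 : ℝ)) U
          rw [Set.indicator_of_notMem h, Set.indicator_of_mem (show U ∈ Wᶜ from h), zero_add]
          exact cnt_le_one E η c U
    _ = ∫ U, W.indicator (fun U : Tor d M → ℝ => cnt E η c U) U ∂(gau d M v) +
          ∫ U, (Wᶜ).indicator (fun _ : Tor d M → ℝ => (1 : ℝ)) U ∂(gau d M v) :=
        integral_add hi1 hi2
    _ ≤ e + δ := by
        rw [h2]
        exact add_le_add he hδ

/-- the literal form of the order: the event inside `W` -/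
theorem t1_and (v : ℝ≥0) (E : ℝ) {η : ℝ} (hη : 0 < η) (c e δ : ℝ) (W : Set (Tor d M → ℝ))
    (hW : MeasurableSet W) (hδ : (gau d M v).real Wᶜ ≤ δ)
    (he : ∫ U, W.indicator (fun U => cnt E η c U) U ∂(gau d M v) ≤ e) :
    1 - (e + δ) ≤ (gau d M v).real {U | c ≤ (rs U ⟨E, η⟩ 0 0).im} := by
  have hprob : IsProbabilityMeasure (gau d M v) := by
    unfold gau
    infer_instance
  have h1 := t1 v E hη c e δ W hW hδ he
  have h2 : {U : Tor d M → ℝ | c ≤ (rs U ⟨E, η⟩ 0 0).im} =
      {U : Tor d M → ℝ | (rs U ⟨E, η⟩ 0 0).im < c}ᶜ := by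
    ext U
    simp only [Set.mem_setOf_eq, Set.mem_compl_iff, not_lt]
  rw [h2, probReal_compl_eq_one_sub (meas_set E hη c 0)]
  linarith

/-- the form for `LW2`: `W = {WL}` -/
theorem t1_wl (v : ℝ≥0) (E : ℝ) {η : ℝ} (hη : 0 < η) (c e δ L : ℝ)
    (hms : AND2B.MswStmt)
    (hδ : gau d M v {U | ¬ AND2B.WL E L U} ≤ ENNReal.ofReal δ) (hδ0 : 0 ≤ δ)
    (he : ∫ U, ({U : Tor d M → ℝ | AND2B.WL E L U}).indicator (fun U => cnt E η c U) U
      ∂(gau d M v) ≤ e) :
    ENNReal.ofReal (1 - (e + δ)) ≤ gau d M v {U | c ≤ (rs U ⟨E, η⟩ 0 0).im} := by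
  have hprob : IsProbabilityMeasure (gau d M v) := by
    unfold gau
    infer_instance
  have h1 : (gau d M v).real ({U : Tor d M → ℝ | AND2B.WL E L U}ᶜ) ≤ δ := by
    have h2 : ({U : Tor d M → ℝ | AND2B.WL E L U}ᶜ) = {U : Tor d M → ℝ | ¬ AND2B.WL E L U} := rfl
    rw [h2]
    exact ENNReal.toReal_le_of_le_ofReal hδ0 hδ
  have h3 := t1_and v E hη c e δ _ (hms d M E L) h1 he
  calc ENNReal.ofReal (1 - (e + δ))
      ≤ ENNReal.ofReal ((gau d M v).real {U | c ≤ (rs U ⟨E, η⟩ 0 0).im}) :=
        ENNReal.ofReal_le_ofReal h3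
    _ = gau d M v {U | c ≤ (rs U ⟨E, η⟩ 0 0).im} := by
        rw [ofReal_measureReal]

end Pool.Agent.ACX.H39
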